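import Pool.Agent.Y812.AK.Comb

/-!
# Jobs J4a, J4b of the project AK (helper728)
-/

set_option autoImplicit false

namespace Pool.Agent.Y812.AK

open Finset NumberField IsDedekindDomain Height Pool.Agent.H691R3 Pool.Agent.TH876.Loc
open Pool.Agent.Y728.AK
open Pool.Agent.TH876.KR (log_Nv_pos')

section
variable {K : Type} [Field K] [NumberField K]

theorem height_div_le (a b : K) : logHeight₁ (a / b) ≤ logHeight₁ a + logHeight₁ b := by
  rw [div_eq_mul_inv]
  refine (logHeight₁_mul_le _ _).trans ?_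
  rw [logHeight₁_inv]

/-- the class bound, finite places -/
theorem class_fin (K : Type) [Field K] [NumberField K] (hc : CoreFin K) : ClassFin K := by
  classical
  obtain ⟨c0, hc0, hcore⟩ := hc
  obtain ⟨c, hcpos, hroot⟩ := root_eq_one (K := K)
  refine ⟨max c0 c, le_max_of_le_left hc0, ?_⟩
  intro hh hhh ι F S m y μ g h ν E Y hm hg hcg hgh hgν hne hμh hκ hy hμ hinj h1 h2 h3
  have hl1 : c0 ≤ max c0 c := le_max_left _ _
  have hl2 : c ≤ max c0 c := le_max_right _ _
  set c1 := max c0 c with hc1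
  have hc1pos : 0 < c1 := by linarith
  have hgpos : 0 < g := by linarith
  have hhpos : 0 < h := by linarith
  have hνpos : 0 < ν := by linarith
  by_contra hcon
  rw [not_le] at hcon
  rw [hg] at hcon
  obtain ⟨x, hx, x', hx', hxx', hpig⟩ := pig_fin F S m μ hμ hcon
  have hYpos : 1 ≤ Y := by
    by_contra h0
    have h0' : Y = 0 := by omega
    rw [h0', Nat.cast_zero, zero_mul] at h3
    have : 0 < c1 * h * ν := by positivity
    linarith
  have hYr : (1:ℝ) ≤ Y := by exact_mod_cast hYpos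
  have hgv : ∀ v ∈ S, 0 < (m v : ℝ) * Real.log (Nv v) := fun v hv => by
    have h4 : (1:ℝ) ≤ m v := by exact_mod_cast hm v hv
    have := log_Nv_pos' v
    positivity
  have hδ : ∀ v ∈ S, Real.exp (-(Y * (m v * Real.log (Nv v)))) < 1 := fun v hv => by
    rw [Real.exp_lt_one_iff]
    have := hgv v hv
    have : 0 < (Y:ℝ) * (m v * Real.log (Nv v)) := by positivity
    linarith
  obtain ⟨hyx, hμx⟩ := hne x hx
  obtain ⟨hyx', hμx'⟩ := hne x' hx'
  have hyy : ∀ v ∈ S, fv v (y x / y x' - 1) ≤ Real.exp (-(Y * (m v * Real.log (Nv v)))) :=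
    fun v hv => nf_div (hδ v hv) (hy x hx v hv) (hy x' hx' v hv)
  have e1 : (μ x / μ x') ^ E * ((y x / y x') ^ hh * (μ x' / μ x) ^ E) = (y x / y x') ^ hh := by
    have : (μ x / μ x') ^ E * (μ x' / μ x) ^ E = 1 := by
      rw [← mul_pow]
      have : μ x / μ x' * (μ x' / μ x) = 1 := by field_simp
      rw [this, one_pow]
    calc _ = (y x / y x') ^ hh * ((μ x / μ x') ^ E * (μ x' / μ x) ^ E) := by ring
      _ = _ := by rw [this, mul_one]
  obtain ⟨hA, hB⟩ := hcore S (fun v => m v * Real.log (Nv v)) g h ν E Y (μ x / μ x')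
    ((y x / y x') ^ hh * (μ x' / μ x) ^ E) (div_ne_zero hμx hμx')
    (mul_ne_zero (pow_ne_zero _ (div_ne_zero hyx hyx')) (pow_ne_zero _ (div_ne_zero hμx' hμx)))
    hgv hg (hl1.trans hcg) hgh hgν (hμh x hx x' hx') (hκ x hx x' hx') hpig
    (fun v hv => by
      rw [e1]
      exact nf_pow (Real.exp_pos _).le (hδ v hv) (hyy v hv) hh)
    ((mul_le_mul_of_nonneg_right hl1 hνpos.le).trans h1)
    (h2.trans (mul_le_mul_of_nonneg_right (Real.exp_le_exp.2
      (div_le_div_of_nonneg_left hgpos.le (by linarith) hl1)) hνpos.le))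
    (le_trans (mul_le_mul_of_nonneg_right (mul_le_mul_of_nonneg_right hl1 hhpos.le) hνpos.le) h3)
  have hC : μ x' / μ x = 1 := by
    rw [← inv_div, hA, inv_one]
  rw [hC, one_pow, mul_one] at hB
  have hD := hroot (y x / y x') hh hhh hB (Or.inl ⟨S, fun v => Y * (m v * Real.log (Nv v)), by
    rw [← Finset.mul_sum, ← hg]
    nlinarith, hyy⟩)
  exact hxx' (hinj x hx x' hx' ((div_eq_one_iff_eq hyx').1 hD))

/-- the class bound by sunflowers, finite places -/
theorem sun_fin {K : Type} [Field K] [NumberField K] {h0 : ℕ} {C : ℝ} {g0 : Pr K → 𝓞 K}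
    (G : GB K h0 C g0) (hc : CoreFin K) : SunFin K h0 g0 := by
  classical
  obtain ⟨c0, hc0, hcore⟩ := hc
  obtain ⟨c, hcpos, hroot⟩ := root_eq_one (K := K)
  have hW0 : (0:ℝ) ≤ totalWeight K * Real.log 2 := by
    have : 0 < Real.log 2 := Real.log_pos (by norm_num)
    positivity
  refine ⟨2 * c0 + c + 8 + (totalWeight K * Real.log 2 + 1), by linarith, ?_⟩
  intro ι F S m y T n m0 N q s g h ν E Y hm hg hcg hne hT hn hST hμh hκ hy hinj hq hs hch hgh hgν
    h1 h2 h3
  set W := (totalWeight K * Real.log 2 : ℝ) with hW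
  set c1 := 2 * c0 + c + 8 + (W + 1) with hc1
  have hc1pos : 0 < c1 := by linarith
  have hgpos : 0 < g := by linarith
  have hqr : (1:ℝ) ≤ q := by exact_mod_cast hq
  have hqνpos : 0 < (q:ℝ) * ν := by linarith
  have hqhpos : 0 < (q:ℝ) * h := by nlinarith
  have hνpos : 0 < ν := by
    by_contra h0
    rw [not_lt] at h0
    nlinarith
  have hνqν : ν ≤ q * ν := by nlinarith
  have hYg : c1 / 2 * (q * ν) ≤ Y * g := by
    have h4 : c1 * (g / 2) * (q * ν) ≤ c1 * (q * h) * (q * ν) := by
      apply mul_le_mul_of_nonneg_right _ hqνpos.le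
      apply mul_le_mul_of_nonneg_left _ hc1pos.le
      linarith
    have h5 : c1 / 2 * (q * ν) * g ≤ Y * g * g := by nlinarith
    exact le_of_mul_le_mul_right h5 hgpos
  have hYg2 : ν + g < Y * g := by
    have : (8:ℝ) / 2 * (q * ν) ≤ c1 / 2 * (q * ν) := by
      apply mul_le_mul_of_nonneg_right _ hqνpos.le
      linarith
    linarith
  have hYpos : 1 ≤ Y := by
    by_contra h0
    have h0' : Y = 0 := by omega
    rw [h0', Nat.cast_zero, zero_mul] at hYg2
    linarith
  have hYr : (1:ℝ) ≤ Y := by exact_mod_cast hYpos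
  have hgv : ∀ v ∈ S, 0 < (m v : ℝ) * Real.log (Nv v) := fun v hv => by
    have h4 : (1:ℝ) ≤ m v := by exact_mod_cast hm v hv
    have := log_Nv_pos' v
    positivity
  have hδ : ∀ v ∈ S, Real.exp (-(Y * (m v * Real.log (Nv v)))) < 1 := fun v hv => by
    rw [Real.exp_lt_one_iff]
    have := hgv v hv
    have : 0 < (Y:ℝ) * (m v * Real.log (Nv v)) := by positivity
    linarith
  have hsumY : ∑ v ∈ S, (Y:ℝ) * (m v * Real.log (Nv v)) = Y * g := by
    rw [← Finset.mul_sum, ← hg]
  have hyy : ∀ x ∈ F, ∀ x' ∈ F, ∀ v ∈ S, fv v (y x / y x' - 1) ≤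
      Real.exp (-(Y * (m v * Real.log (Nv v)))) :=
    fun x hx x' hx' v hv => nf_div (hδ v hv) (hy x hx v hv) (hy x' hx' v hv)
  refine sun_count F T n m0 N s hs hT (fun x hx v hv => (hn x hx v hv).2) ?_ ?_
  · intro x hx x' hx' hTT hnn
    have hmu : mu g0 (T x) (n x) = mu g0 (T x') (n x') := by
      unfold Pool.Agent.Y728.AK.mu
      rw [← hTT]
      exact Finset.prod_congr rfl fun v hv => by rw [hnn v hv]
    have h4 := hκ x hx x' hx'
    rw [hmu, div_self (G.mu_ne _ _), one_pow, mul_one] at h4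
    have hz1 : (y x / y x') ^ h0 = 1 := by
      by_contra hz
      have hz' : (y x / y x') ^ h0 - 1 ≠ 0 := sub_ne_zero.2 hz
      have h5 := liouville hz' (S.map ⟨Sum.inr, Sum.inr_injective⟩)
      rw [Finset.sum_map] at h5
      have h6 : ∑ v ∈ S, lg (Sum.inr v : Pl K) ((y x / y x') ^ h0 - 1) ≤
          ∑ v ∈ S, -((Y:ℝ) * (m v * Real.log (Nv v))) := by
        refine Finset.sum_le_sum fun v hv => ?_
        unfold lg
        show 1 * Real.log (fv v ((y x / y x') ^ h0 - 1)) ≤ _
        rw [one_mul]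
        have h7 := Real.log_le_log (Pool.Agent.TH876.KR.fv_pos v hz')
          (nf_pow (Real.exp_pos _).le (hδ v hv) (hyy x hx x' hx' v hv) h0)
        rwa [Real.log_exp] at h7
      rw [Finset.sum_neg_distrib, hsumY] at h6
      have h7 : -logHeight₁ ((y x / y x') ^ h0 - 1) ≤
        ∑ v ∈ S, lg (Sum.inr v : Pl K) ((y x / y x') ^ h0 - 1) := h5
      have h8 := logHeight₁_sub_le ((y x / y x') ^ h0) 1
      rw [logHeight₁_one, ← hW] at h8
      linarith
    have hD := hroot (y x / y x') h0 G.h1 hz1 (Or.inl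
      ⟨S, fun v => Y * (m v * Real.log (Nv v)), by
        rw [hsumY]
        linarith, hyy x hx x' hx'⟩)
    exact hinj x hx x' hx' ((div_eq_one_iff_eq (hne x' hx')).1 hD)
  · intro P' hP' hcardP hpriv
    set M : Finset ι → K := fun I => ∏ x ∈ I, mu g0 (T x) (n x) with hM
    have hMv : ∀ I ∈ P'.powersetCard q, ∀ v ∈ S, fv v (M I) = 1 := by
      intro I hI v hv
      have hIP := (Finset.mem_powersetCard.1 hI).1
      rw [hM]
      show fv v (∏ x ∈ I, mu g0 (T x) (n x)) = 1
      rw [map_prod]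
      refine Finset.prod_eq_one fun x hx => ?_
      exact G.fv_mu_out _ _ (hST x (hP' (hIP hx)) v hv)
    have hcardI : Real.exp (∑ v ∈ S, m v * Real.log (Nv v)) < ((P'.powersetCard q).card : ℝ) := by
      rw [← hg, Finset.card_powersetCard]
      refine hch.trans_le ?_
      exact_mod_cast Nat.choose_le_choose q hcardP
    obtain ⟨I, hI, I', hI', hII', hpig⟩ := pig_fin _ S m M hMv hcardI
    obtain ⟨hIP, hIc⟩ := Finset.mem_powersetCard.1 hI
    obtain ⟨hIP', hIc'⟩ := Finset.mem_powersetCard.1 hI'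
    have hIF : I ⊆ F := hIP.trans hP'
    have hIF' : I' ⊆ F := hIP'.trans hP'
    have hMne : ∀ J, M J ≠ 0 := fun J => Finset.prod_ne_zero_iff.2 fun x _ => G.mu_ne _ _
    set YY : Finset ι → K := fun I => ∏ x ∈ I, y x with hYY
    have hYYne : ∀ J ⊆ F, YY J ≠ 0 := fun J hJ => Finset.prod_ne_zero_iff.2 fun x hx =>
      hne x (hJ hx)
    -- bijection
    obtain ⟨e⟩ : Nonempty (I ≃ I') := ⟨Finset.equivOfCardEq (hIc.trans hIc'.symm)⟩
    have hκe : (YY I / YY I') ^ h0 * (M I' / M I) ^ E = ∏ x : I,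
        ((y x / y (e x)) ^ h0 * (mu g0 (T (e x)) (n (e x)) / mu g0 (T x) (n x)) ^ E) := by
      rw [Finset.prod_mul_distrib, Finset.prod_pow, Finset.prod_pow, Finset.prod_div_distrib,
        Finset.prod_div_distrib]
      have a1 : YY I = ∏ x : I, y x := (Finset.prod_coe_sort I y).symm
      have a2 : YY I' = ∏ x : I, y (e x) := by
        rw [Equiv.prod_comp e (fun x : I' => y x)]
        exact (Finset.prod_coe_sort I' y).symm
      have a3 : M I = ∏ x : I, mu g0 (T x) (n x) :=
        (Finset.prod_coe_sort I fun x => mu g0 (T x) (n x)).symm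
      have a4 : M I' = ∏ x : I, mu g0 (T (e x)) (n (e x)) := by
        rw [Equiv.prod_comp e (fun x : I' => mu g0 (T x) (n x))]
        exact (Finset.prod_coe_sort I' fun x => mu g0 (T x) (n x)).symm
      rw [a1, a2, a3, a4]
    have hκh : logHeight₁ ((YY I / YY I') ^ h0 * (M I' / M I) ^ E) ≤ q * ν := by
      rw [hκe]
      refine (logHeight₁_prod_le _ _).trans ?_
      refine (Finset.sum_le_sum fun (x : I) _ => hκ x (hIF x.2) (e x) (hIF' (e x).2)).trans ?_
      rw [Finset.sum_const, Finset.card_univ, Fintype.card_coe, hIc, nsmul_eq_mul]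
    have hMh : ∀ J ⊆ F, J.card = q → logHeight₁ (M J) ≤ q * h := by
      intro J hJ hJc
      refine (logHeight₁_prod_le _ _).trans ?_
      refine (Finset.sum_le_sum fun x hx => hμh x (hJ hx)).trans ?_
      rw [Finset.sum_const, hJc, nsmul_eq_mul]
    have hMh2 : logHeight₁ (M I / M I') ≤ 2 * q * h := by
      refine (height_div_le _ _).trans ?_
      have := hMh I hIF hIc
      have := hMh I' hIF' hIc'
      linarith
    have e1 : (M I / M I') ^ E * ((YY I / YY I') ^ h0 * (M I' / M I) ^ E) =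
        (YY I / YY I') ^ h0 := by
      have : (M I / M I') ^ E * (M I' / M I) ^ E = 1 := by
        rw [← mul_pow]
        have a1 := hMne I
        have a2 := hMne I'
        have : M I / M I' * (M I' / M I) = 1 := by field_simp
        rw [this, one_pow]
      calc _ = (YY I / YY I') ^ h0 * ((M I / M I') ^ E * (M I' / M I) ^ E) := by ring
        _ = _ := by rw [this, mul_one]
    have hYYv : ∀ J ⊆ F, ∀ v ∈ S, fv v (YY J - 1) ≤ Real.exp (-(Y * (m v * Real.log (Nv v)))) :=
      fun J hJ v hv => nf_prod (Real.exp_pos _).le (hδ v hv) J y fun x hx => hy x (hJ hx) v hv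
    have hl1 : c0 ≤ c1 := by linarith
    obtain ⟨hA, -⟩ := hcore S (fun v => m v * Real.log (Nv v)) g (2 * q * h) (q * ν) E Y
      (M I / M I') ((YY I / YY I') ^ h0 * (M I' / M I) ^ E) (div_ne_zero (hMne _) (hMne _))
      (mul_ne_zero (pow_ne_zero _ (div_ne_zero (hYYne _ hIF) (hYYne _ hIF')))
        (pow_ne_zero _ (div_ne_zero (hMne _) (hMne _))))
      hgv hg (hl1.trans hcg) hgh hgν hMh2 hκh hpig
      (fun v hv => by
        rw [e1]
        exact nf_pow (Real.exp_pos _).le (hδ v hv)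
          (nf_div (hδ v hv) (hYYv I hIF v hv) (hYYv I' hIF' v hv)) h0)
      ((mul_le_mul_of_nonneg_right hl1 hqνpos.le).trans h1)
      (h2.trans (mul_le_mul_of_nonneg_right (Real.exp_le_exp.2
        (div_le_div_of_nonneg_left hgpos.le (by linarith) hl1)) hqνpos.le))
      (by
        refine le_trans ?_ h3
        have : c0 * (2 * q * h) * (q * ν) = (2 * c0) * (q * h) * (q * ν) := by ring
        rw [this]
        apply mul_le_mul_of_nonneg_right _ hqνpos.le
        apply mul_le_mul_of_nonneg_right _ hqhpos.le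
        linarith)
    have hMM : M I = M I' := (div_eq_one_iff_eq (hMne _)).1 hA
    -- a private prime
    obtain ⟨x, hxI, hxI'⟩ : ∃ x ∈ I, x ∉ I' := by
      by_contra hcon
      push Not at hcon
      exact hII' (Finset.eq_of_subset_of_card_le hcon (by rw [hIc, hIc']))
    obtain ⟨v, hvT, hvpriv⟩ := hpriv x (hIP hxI)
    have hr : fv v (M I') = 1 := by
      rw [hM]
      show fv v (∏ x ∈ I', mu g0 (T x) (n x)) = 1
      rw [map_prod]
      refine Finset.prod_eq_one fun x' hx' => ?_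
      exact G.fv_mu_out _ _ (hvpriv x' (hIP' hx') (fun h => hxI' (h ▸ hx')))
    have hl : fv v (M I) = fv v (mu g0 (T x) (n x)) := by
      rw [hM]
      show fv v (∏ x ∈ I, mu g0 (T x) (n x)) = _
      rw [map_prod, ← Finset.mul_prod_erase I _ hxI, Finset.prod_eq_one, mul_one]
      intro x' hx'
      exact G.fv_mu_out _ _ (hvpriv x' (hIP (Finset.mem_of_mem_erase hx'))
        (Finset.ne_of_mem_erase hx'))
    have hlog := G.fv_mu (T x) (n x) hvT
    rw [← hl, hMM, hr, Real.log_one] at hlog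
    have hn0 : (n x v : ℝ) ≠ 0 := by exact_mod_cast (hn x (hP' (hIP hxI)) v hvT).1
    have hh0 : (h0 : ℝ) ≠ 0 := by
      have := G.h1
      exact_mod_cast (by omega : h0 ≠ 0)
    have hNv := (log_Nv_pos' v).ne'
    have : (h0 : ℝ) * n x v * Real.log (Nv v) ≠ 0 := mul_ne_zero (mul_ne_zero hh0 hn0) hNv
    apply this
    linarith

end

end Pool.Agent.Y812.AK
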