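import Pool.Agent.Y812.AK.Comb

/-!
# Job J4c of the project AK (helper728)
-/

set_option autoImplicit false

namespace Pool.Agent.Y812.AK

open Finset NumberField IsDedekindDomain Height Pool.Agent.H691R3 Pool.Agent.TH876.Loc
open Pool.Agent.Y728.AK
open Pool.Agent.TH876.KR (log_Nv_pos' near_prod near_mul near_pow)

section
variable {K : Type} [Field K] [NumberField K]

omit [NumberField K] in
theorem near_inv {w : InfinitePlace K} {y : K} {δ : ℝ} (hδ8 : δ ≤ 1 / 8) (hy : w (y - 1) ≤ δ) :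
    w (y⁻¹ - 1) ≤ 2 * δ := by
  have hy' : w.1 (y - 1) ≤ δ := hy
  have hδ0 : 0 ≤ δ := (w.1.nonneg _).trans hy'
  have h1 : 1 - δ ≤ w.1 y := by
    have h2 : (1:K) = y + -(y - 1) := by ring
    have h3 : w.1 (1:K) ≤ w.1 y + w.1 (y - 1) := by
      calc w.1 (1:K) = w.1 (y + -(y - 1)) := by rw [← h2]
        _ ≤ w.1 y + w.1 (-(y - 1)) := w.1.add_le _ _
        _ = _ := by rw [w.1.map_neg]
    rw [map_one] at h3
    linarith
  have h4 : 0 < w.1 y := by linarith
  have h5 : y ≠ 0 := by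
    intro h
    rw [h, map_zero] at h4
    exact lt_irrefl _ h4
  have h6 : y⁻¹ - 1 = -(y - 1) / y := by
    field_simp
    ring
  show w.1 (y⁻¹ - 1) ≤ _
  rw [h6, map_div₀, w.1.map_neg, div_le_iff₀ h4]
  have h8 : 2 * δ * (1 - δ) ≤ 2 * δ * w.1 y := mul_le_mul_of_nonneg_left h1 (by linarith)
  nlinarith

theorem near_quot {ι : Type*} {w : InfinitePlace K} {n h : ℕ} (y : ι → K) (I J : Finset ι) {δ : ℝ}
    (hδ0 : 0 ≤ δ) (hI : ∀ i ∈ I, w (y i - 1) ≤ δ) (hJ : ∀ i ∈ J, w (y i - 1) ≤ δ)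
    (hIc : I.card ≤ n) (hJc : J.card ≤ n)
    (hδ : 8 * (n * h : ℕ) * δ ≤ 1) (hh : 1 ≤ h) (hn : 1 ≤ n) :
    w (((∏ i ∈ I, y i) / ∏ j ∈ J, y j) ^ h - 1) ≤ 8 * (n * h : ℕ) * δ := by
  have hnh : (1:ℝ) ≤ (n * h : ℕ) := by
    have : 1 ≤ n * h := Nat.one_le_iff_ne_zero.2 (by positivity)
    exact_mod_cast this
  have hδ8 : δ ≤ 1/8 := by
    have := mul_le_mul_of_nonneg_right hnh hδ0
    linarith
  have hI' : ∀ i ∈ I, w.1 (y i - 1) ≤ δ := hI
  have hinv : ∀ i ∈ J, w.1 ((y i)⁻¹ - 1) ≤ 2 * δ := fun i hi => near_inv hδ8 (hJ i hi)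
  have h1 := near_prod w.1 I y (t := 2 * δ) (fun i hi => (hI' i hi).trans (by linarith))
    (by linarith)
  have h2 := near_prod w.1 J (fun j => (y j)⁻¹) (t := 2 * δ) (fun i hi => hinv i hi) (by linarith)
  have h3 := near_mul w.1 (∏ i ∈ I, y i) (∏ j ∈ J, (y j)⁻¹)
  have h4 := near_pow w.1 ((∏ i ∈ I, y i) * (∏ j ∈ J, (y j)⁻¹)) h
  have h5 : 1 + w.1 ((∏ i ∈ I, y i) * (∏ j ∈ J, (y j)⁻¹) - 1) ≤ (1 + 2 * δ) ^ (2 * n) := by
    refine h3.trans ?_
    calc (1 + w.1 (∏ i ∈ I, y i - 1)) * (1 + w.1 (∏ j ∈ J, (y j)⁻¹ - 1))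
        ≤ (1 + 2 * δ) ^ I.card * (1 + 2 * δ) ^ J.card := by
          apply mul_le_mul h1 h2
          · have := w.1.nonneg (∏ j ∈ J, (y j)⁻¹ - 1)
            linarith
          · positivity
      _ = (1 + 2 * δ) ^ (I.card + J.card) := (pow_add _ _ _).symm
      _ ≤ (1 + 2 * δ) ^ (2 * n) := pow_le_pow_right₀ (by linarith) (by omega)
  have h6 : (1 + w.1 ((∏ i ∈ I, y i) * (∏ j ∈ J, (y j)⁻¹) - 1)) ^ h ≤ (1 + 2 * δ) ^ (2 * n * h) := by
    rw [pow_mul]
    apply pow_le_pow_left₀ _ h5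
    have := w.1.nonneg ((∏ i ∈ I, y i) * (∏ j ∈ J, (y j)⁻¹) - 1)
    linarith
  have h7 : (1 + 2 * δ) ^ (2 * n * h) ≤ Real.exp (4 * (n * h : ℕ) * δ) := by
    have h8 : 1 + 2 * δ ≤ Real.exp (2 * δ) := by
      have := Real.add_one_le_exp (2 * δ)
      linarith
    calc (1 + 2 * δ) ^ (2 * n * h) ≤ (Real.exp (2 * δ)) ^ (2 * n * h) :=
          pow_le_pow_left₀ (by linarith) h8 _
      _ = Real.exp (4 * (n * h : ℕ) * δ) := by
          rw [← Real.exp_nat_mul]
          congr 1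
          push_cast
          ring
  have h9 : Real.exp (4 * (n * h : ℕ) * δ) ≤ 1 + 8 * (n * h : ℕ) * δ := by
    obtain ⟨x, hx⟩ : ∃ x : ℝ, x = 4 * (n * h : ℕ) * δ := ⟨_, rfl⟩
    have hx0 : 0 ≤ x := by rw [hx]; positivity
    have hx1 : x ≤ 1/2 := by rw [hx]; linarith
    have h10 := Real.abs_exp_sub_one_sub_id_le (x := x) (by rw [abs_of_nonneg hx0]; linarith)
    rw [abs_le] at h10
    have h11 : 8 * (n * h : ℕ) * δ = 2 * x := by rw [hx]; ring
    rw [h11, ← hx]
    nlinarith [h10.2]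
  have h12 : ((∏ i ∈ I, y i) / ∏ j ∈ J, y j) = (∏ i ∈ I, y i) * (∏ j ∈ J, (y j)⁻¹) := by
    rw [Finset.prod_inv_distrib, div_eq_mul_inv]
  have h13 : w.1 (((∏ i ∈ I, y i) / ∏ j ∈ J, y j) ^ h - 1) ≤ 8 * (n * h : ℕ) * δ := by
    rw [h12]
    linarith [h4.trans (h6.trans (h7.trans h9))]
  exact h13

theorem floor_mem {t A : ℝ} (h : |t| ≤ A) : ⌊t⌋ ∈ Finset.Icc (-(⌈A⌉₊ : ℤ)) (⌈A⌉₊ : ℤ) := by
  rw [abs_le] at h
  have h1 := Nat.le_ceil A
  rw [Finset.mem_Icc]
  constructor
  · rw [Int.le_floor]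
    push_cast
    linarith
  · have : ⌊t⌋ < (⌈A⌉₊ : ℤ) + 1 := by
      rw [Int.floor_lt]
      push_cast
      linarith
    omega

/-- pigeonhole in small cells at an infinite place -/
theorem pig_inf {ι : Type*} (F : Finset ι) (w : InfinitePlace K) (μ : ι → K) {H g : ℝ}
    (hμ0 : ∀ x ∈ F, μ x ≠ 0) (hμ : ∀ x ∈ F, logHeight₁ (μ x) ≤ H) (hg : 0 ≤ g) (hH : 1 ≤ H)
    (hcard : 400 * H * Real.exp (2 * g) < F.card) :
    ∃ x ∈ F, ∃ x' ∈ F, x ≠ x' ∧ w (μ x / μ x' - 1) ≤ Real.exp (-g) := by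
  classical
  set B : ℝ := 4 * Real.exp g with hB
  have hexp1 : 1 ≤ Real.exp g := Real.one_le_exp hg
  have hB4 : 4 ≤ B := by rw [hB]; linarith
  have hB0 : 0 < B := by linarith
  have hHB : 4 ≤ H * B := by nlinarith
  obtain ⟨x, hx, x', hx', hne, heq⟩ := Finset.exists_ne_map_eq_of_card_lt_of_maps_to
    (s := F) (t := Finset.Icc (-(⌈H * B⌉₊ : ℤ)) (⌈H * B⌉₊ : ℤ) ×ˢ
      Finset.Icc (-(⌈Real.pi * B⌉₊ : ℤ)) (⌈Real.pi * B⌉₊ : ℤ))
    (f := fun x => ((⌊Real.log (w (μ x)) * B⌋, ⌊(w.embedding (μ x)).arg * B⌋) : ℤ × ℤ)) (by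
      rw [Finset.card_product, Int.card_Icc, Int.card_Icc]
      have e1 : ((⌈H * B⌉₊ : ℤ) + 1 - -(⌈H * B⌉₊ : ℤ)).toNat = 2 * ⌈H * B⌉₊ + 1 := by omega
      have e2 : ((⌈Real.pi * B⌉₊ : ℤ) + 1 - -(⌈Real.pi * B⌉₊ : ℤ)).toNat =
        2 * ⌈Real.pi * B⌉₊ + 1 := by omega
      rw [e1, e2]
      have a1 : (⌈H * B⌉₊ : ℝ) < H * B + 1 := Nat.ceil_lt_add_one (by positivity)
      have a2 : (⌈Real.pi * B⌉₊ : ℝ) < Real.pi * B + 1 := Nat.ceil_lt_add_one (by positivity)
      have a3 : (2 * (⌈H * B⌉₊ : ℝ) + 1) ≤ 3 * (H * B) := by linarith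
      have a4 : (2 * (⌈Real.pi * B⌉₊ : ℝ) + 1) ≤ 8 * B := by
        have : Real.pi * B ≤ 3.15 * B := by
          apply mul_le_mul_of_nonneg_right _ hB0.le
          have := Real.pi_lt_d2
          linarith
        linarith
      have a5 : (2 * (⌈H * B⌉₊ : ℝ) + 1) * (2 * (⌈Real.pi * B⌉₊ : ℝ) + 1) ≤
          3 * (H * B) * (8 * B) := mul_le_mul a3 a4 (by positivity) (by positivity)
      have a6 : 3 * (H * B) * (8 * B) ≤ 400 * H * Real.exp (2 * g) := by
        have : Real.exp (2 * g) = Real.exp g * Real.exp g := by rw [← Real.exp_add]; ring_nf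
        rw [this, hB]
        have : 0 < H * (Real.exp g * Real.exp g) := by positivity
        nlinarith
      have a7 := a5.trans_lt (a6.trans_lt hcard)
      exact_mod_cast a7)
    (fun x hx => by
      have hx1 := lg_le_height (μ x) (hμ0 x hx) (Sum.inl w)
      have hx2 : |(w.mult : ℝ) * Real.log (w (μ x))| ≤ H := hx1.trans (hμ x hx)
      have hm1 : (1 : ℝ) ≤ w.mult := by exact_mod_cast InfinitePlace.mult_pos
      have hx3 : |Real.log (w (μ x))| ≤ H := by
        refine le_trans ?_ hx2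
        rw [abs_mul, abs_of_nonneg (by linarith : (0:ℝ) ≤ w.mult)]
        nlinarith [abs_nonneg (Real.log (w (μ x)))]
      refine Finset.mem_coe.2 (Finset.mem_product.2 ⟨floor_mem ?_, floor_mem ?_⟩)
      · rw [abs_mul, abs_of_pos hB0]
        exact mul_le_mul_of_nonneg_right hx3 hB0.le
      · rw [abs_mul, abs_of_pos hB0]
        exact mul_le_mul_of_nonneg_right (Complex.abs_arg_le_pi _) hB0.le)
  refine ⟨x, hx, x', hx', hne, ?_⟩
  have h1 : ⌊Real.log (w (μ x)) * B⌋ = ⌊Real.log (w (μ x')) * B⌋ := congrArg Prod.fst heq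
  have h2 : ⌊(w.embedding (μ x)).arg * B⌋ = ⌊(w.embedding (μ x')).arg * B⌋ :=
    congrArg Prod.snd heq
  have h3 := Int.abs_sub_lt_one_of_floor_eq_floor h1
  have h4 := Int.abs_sub_lt_one_of_floor_eq_floor h2
  rw [← sub_mul, abs_mul, abs_of_pos hB0, ← lt_div_iff₀ hB0] at h3 h4
  have hz : w.embedding (μ x) ≠ 0 := by
    rw [Ne, map_eq_zero]
    exact hμ0 x hx
  have hz' : w.embedding (μ x') ≠ 0 := by
    rw [Ne, map_eq_zero]
    exact hμ0 x' hx'
  set z := w.embedding (μ x) with hzdef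
  set z' := w.embedding (μ x') with hzdef'
  have hw : w (μ x / μ x' - 1) = ‖z / z' - 1‖ := by
    rw [← InfinitePlace.norm_embedding_eq, map_sub, map_div₀, map_one]
  have hzz : z / z' = Complex.exp (Complex.log z - Complex.log z') := by
    rw [Complex.exp_sub, Complex.exp_log hz, Complex.exp_log hz']
  have hnorm : ‖Complex.log z - Complex.log z'‖ ≤ 2 * (1 / B) := by
    refine (Complex.norm_le_abs_re_add_abs_im _).trans ?_
    rw [Complex.sub_re, Complex.sub_im, Complex.log_re, Complex.log_re, Complex.log_im,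
      Complex.log_im]
    rw [hzdef, hzdef', InfinitePlace.norm_embedding_eq, InfinitePlace.norm_embedding_eq]
    linarith
  have hinvB : 1 / B = Real.exp (-g) / 4 := by
    rw [hB, Real.exp_neg]
    field_simp
  have he1 : Real.exp (-g) ≤ 1 := by
    rw [Real.exp_le_one_iff]
    linarith
  rw [hinvB] at hnorm
  rw [hw, hzz]
  refine (Complex.norm_exp_sub_one_le (by linarith)).trans ?_
  linarith

/-- the class bound by sunflowers, an infinite place -/
theorem sun_inf {K : Type} [Field K] [NumberField K] {h0 : ℕ} {C : ℝ} {g0 : Pr K → 𝓞 K}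
    (G : GB K h0 C g0) (hc : CoreInf K) : SunInf K h0 g0 := by
  classical
  obtain ⟨c0, hc0, hcore⟩ := hc
  obtain ⟨c, hcpos, hroot⟩ := root_eq_one (K := K)
  have hW0 : (0:ℝ) ≤ totalWeight K * Real.log 2 := by
    have : 0 < Real.log 2 := Real.log_pos (by norm_num)
    positivity
  have hh0r : (1:ℝ) ≤ h0 := by exact_mod_cast G.h1
  refine ⟨4 * c0 + c + 400 + 32 * h0 + (totalWeight K * Real.log 2 + 1), by linarith, ?_⟩
  intro ι F w y T n m0 N q s g h ν E Y hcg hne hT hn hμh hκ hy hinj hq hs hch hcq hY2 hgh hgν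
    h1 h2 h3
  set W := (totalWeight K * Real.log 2 : ℝ) with hW
  set c1 := 4 * c0 + c + 400 + 32 * h0 + (W + 1) with hc1
  have hc1pos : 0 < c1 := by linarith
  have hgpos : 0 < g := by linarith
  have hqr : (1:ℝ) ≤ q := by exact_mod_cast hq
  have hqνpos : 0 < (q:ℝ) * ν := by linarith
  have hqhpos : 0 < (q:ℝ) * h := by nlinarith
  have hνpos : 0 < ν := by
    by_contra h0
    rw [not_lt] at h0
    nlinarith
  have hνqν : ν ≤ q * ν := by nlinarith
  have hYg : c1 / 2 * (q * ν) ≤ Y * g := by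
    have h4 : c1 * (g / 2) * (q * ν) ≤ c1 * (q * h) * (q * ν) := by
      apply mul_le_mul_of_nonneg_right _ hqνpos.le
      apply mul_le_mul_of_nonneg_left _ hc1pos.le
      linarith
    have h5 : c1 / 2 * (q * ν) * g ≤ Y * g * g := by nlinarith
    exact le_of_mul_le_mul_right h5 hgpos
  have hYg2 : ν + g < Y * g := by
    have : (8:ℝ) / 2 * (q * ν) ≤ c1 / 2 * (q * ν) := by
      apply mul_le_mul_of_nonneg_right _ hqνpos.le
      linarith
    linarith
  have hYr : (2:ℝ) ≤ Y := by exact_mod_cast hY2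
  -- the distance of quotients from one
  have hexpg : 1 ≤ Real.exp g := Real.one_le_exp hgpos.le
  have hδ1 : Real.exp (-(Y * g)) ≤ Real.exp (-g) := by
    rw [Real.exp_le_exp]
    nlinarith
  have hδY : Real.exp (-(Y * g)) = Real.exp (-(((Y - 1 : ℕ) : ℝ) * g)) * Real.exp (-g) := by
    rw [← Real.exp_add, Nat.cast_sub (by omega)]
    congr 1
    push_cast
    ring
  have hqh0 : 8 * ((q * h0 : ℕ) : ℝ) * Real.exp (-g) ≤ 1 := by
    rw [Real.exp_neg, ← div_eq_mul_inv, div_le_one (Real.exp_pos _)]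
    refine le_trans ?_ hcq
    push_cast
    have : 8 * (h0:ℝ) ≤ c1 := by linarith
    nlinarith
  have hnear : ∀ I ⊆ F, ∀ J ⊆ F, I.card ≤ q → J.card ≤ q →
      w (((∏ i ∈ I, y i) / ∏ j ∈ J, y j) ^ h0 - 1) ≤ Real.exp (-(((Y - 1 : ℕ) : ℝ) * g)) := by
    intro I hI J hJ hIc hJc
    refine (near_quot y I J (n := q) (h := h0) (Real.exp_pos (-(Y * g))).le
      (fun i hi => hy i (hI hi)) (fun i hi => hy i (hJ hi)) hIc hJc ?_ G.h1 hq).trans ?_
    · refine le_trans ?_ hqh0
      exact mul_le_mul_of_nonneg_left hδ1 (by positivity)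
    · rw [hδY]
      have := mul_le_mul_of_nonneg_left hqh0 (Real.exp_pos (-(((Y - 1 : ℕ) : ℝ) * g))).le
      linarith
  refine sun_count F T n m0 N s hs hT (fun x hx v hv => (hn x hx v hv).2) ?_ ?_
  · intro x hx x' hx' hTT hnn
    have hmu : Pool.Agent.Y728.AK.mu g0 (T x) (n x) = Pool.Agent.Y728.AK.mu g0 (T x') (n x') := by
      unfold Pool.Agent.Y728.AK.mu
      rw [← hTT]
      exact Finset.prod_congr rfl fun v hv => by rw [hnn v hv]
    have h4 := hκ x hx x' hx'
    rw [hmu, div_self (G.mu_ne _ _), one_pow, mul_one] at h4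
    have hδ8 : 8 * ((1 * h0 : ℕ) : ℝ) * Real.exp (-(Y * g)) ≤ Real.exp (-(Y * g)) * c1 := by
      rw [mul_comm]
      apply mul_le_mul_of_nonneg_left _ (Real.exp_pos _).le
      push_cast
      linarith
    have hc1e : c1 * Real.exp (-g) ≤ 1 := by
      rw [Real.exp_neg, ← div_eq_mul_inv, div_le_one (Real.exp_pos _)]
      refine le_trans ?_ hcq
      nlinarith
    have hdist : ∀ k : ℕ, 1 ≤ k → k ≤ h0 →
        w ((y x / y x') ^ k - 1) ≤ 8 * ((1 * k : ℕ) : ℝ) * Real.exp (-(Y * g)) := by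
      intro k hk hkh
      have h5 := near_quot (w := w) y {x} {x'} (n := 1) (h := k) (Real.exp_pos (-(Y * g))).le
        (fun i hi => by rw [Finset.mem_singleton] at hi; rw [hi]; exact hy x hx)
        (fun i hi => by rw [Finset.mem_singleton] at hi; rw [hi]; exact hy x' hx')
        (by simp) (by simp) (by
          have h6 : 8 * ((1 * k : ℕ) : ℝ) ≤ c1 := by
            push_cast
            have : (k:ℝ) ≤ h0 := by exact_mod_cast hkh
            linarith
          calc 8 * ((1 * k : ℕ) : ℝ) * Real.exp (-(Y * g)) ≤ c1 * Real.exp (-g) :=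
                mul_le_mul h6 hδ1 (Real.exp_pos _).le hc1pos.le
            _ ≤ 1 := hc1e) hk le_rfl
      rw [Finset.prod_singleton, Finset.prod_singleton] at h5
      exact h5
    have hz1 : (y x / y x') ^ h0 = 1 := by
      by_contra hz
      have hz' : (y x / y x') ^ h0 - 1 ≠ 0 := sub_ne_zero.2 hz
      have h5 := liouville hz' {(Sum.inl w : Pl K)}
      rw [Finset.sum_singleton] at h5
      have hd := hdist h0 G.h1 le_rfl
      have h6 : Real.log (w ((y x / y x') ^ h0 - 1)) ≤ 16 * h0 - Y * g := by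
        have h7 := Real.log_le_log (InfinitePlace.pos_iff.2 hz') hd
        have h80 : 0 < 8 * ((1 * h0 : ℕ) : ℝ) := by
          push_cast
          linarith
        rw [Real.log_mul h80.ne' (Real.exp_pos _).ne', Real.log_exp] at h7
        have h8 : Real.log (8 * ((1 * h0 : ℕ) : ℝ)) ≤ 8 * ((1 * h0 : ℕ) : ℝ) := by
          have := Real.log_le_sub_one_of_pos h80
          linarith
        push_cast at h8 h7
        rw [one_mul] at h8 h7
        linarith
      have hneg : 16 * (h0:ℝ) - Y * g ≤ 0 := by linarith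
      have h7 : lg (Sum.inl w : Pl K) ((y x / y x') ^ h0 - 1) ≤ 16 * h0 - Y * g := by
        unfold lg
        show (w.mult : ℝ) * Real.log (w ((y x / y x') ^ h0 - 1)) ≤ _
        have hm1 : (1 : ℝ) ≤ w.mult := by exact_mod_cast InfinitePlace.mult_pos
        nlinarith
      have h8 := logHeight₁_sub_le ((y x / y x') ^ h0) 1
      rw [logHeight₁_one, ← hW] at h8
      linarith
    have hD := hroot (y x / y x') h0 G.h1 hz1 (Or.inr ⟨w, by
      have hd := hdist 1 le_rfl G.h1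
      rw [pow_one] at hd
      refine hd.trans ?_
      have h5 : 8 * ((1 * 1 : ℕ) : ℝ) ≤ Real.exp 8 := by
        have := Real.add_one_le_exp (8:ℝ)
        push_cast
        linarith
      calc 8 * ((1 * 1 : ℕ) : ℝ) * Real.exp (-(Y * g)) ≤ Real.exp 8 * Real.exp (-(Y * g)) :=
            mul_le_mul_of_nonneg_right h5 (Real.exp_pos _).le
        _ = Real.exp (8 - Y * g) := by rw [← Real.exp_add]; ring_nf
        _ ≤ Real.exp (-c) := by
            rw [Real.exp_le_exp]
            linarith⟩)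
    exact hinj x hx x' hx' ((div_eq_one_iff_eq (hne x' hx')).1 hD)
  · intro P' hP' hcardP hpriv
    set M : Finset ι → K := fun I => ∏ x ∈ I, Pool.Agent.Y728.AK.mu g0 (T x) (n x) with hM
    have hMne : ∀ J, M J ≠ 0 := fun J => Finset.prod_ne_zero_iff.2 fun x _ => G.mu_ne _ _
    have hMh : ∀ J ⊆ F, J.card = q → logHeight₁ (M J) ≤ q * h := by
      intro J hJ hJc
      refine (logHeight₁_prod_le _ _).trans ?_
      refine (Finset.sum_le_sum fun x hx => hμh x (hJ hx)).trans ?_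
      rw [Finset.sum_const, hJc, nsmul_eq_mul]
    have hqh1 : 1 ≤ (q:ℝ) * h := by linarith
    have hcardI : 400 * ((q:ℝ) * h) * Real.exp (2 * g) < ((P'.powersetCard q).card : ℝ) := by
      rw [Finset.card_powersetCard]
      refine lt_of_le_of_lt ?_ (hch.trans_le ?_)
      · apply mul_le_mul_of_nonneg_right _ (Real.exp_pos _).le
        apply mul_le_mul_of_nonneg_right _ hqhpos.le
        linarith
      · exact_mod_cast Nat.choose_le_choose q hcardP
    obtain ⟨I, hI, I', hI', hII', hpig⟩ := pig_inf _ w M (H := q * h) (g := g)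
      (fun J _ => hMne J)
      (fun J hJ => hMh J ((Finset.mem_powersetCard.1 hJ).1.trans hP') (Finset.mem_powersetCard.1 hJ).2)
      hgpos.le hqh1 hcardI
    obtain ⟨hIP, hIc⟩ := Finset.mem_powersetCard.1 hI
    obtain ⟨hIP', hIc'⟩ := Finset.mem_powersetCard.1 hI'
    have hIF : I ⊆ F := hIP.trans hP'
    have hIF' : I' ⊆ F := hIP'.trans hP'
    set YY : Finset ι → K := fun I => ∏ x ∈ I, y x with hYY
    have hYYne : ∀ J ⊆ F, YY J ≠ 0 := fun J hJ => Finset.prod_ne_zero_iff.2 fun x hx =>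
      hne x (hJ hx)
    -- bijection
    obtain ⟨e⟩ : Nonempty (I ≃ I') := ⟨Finset.equivOfCardEq (hIc.trans hIc'.symm)⟩
    have hκe : (YY I / YY I') ^ h0 * (M I' / M I) ^ E = ∏ x : I,
        ((y x / y (e x)) ^ h0 * (Pool.Agent.Y728.AK.mu g0 (T (e x)) (n (e x)) /
          Pool.Agent.Y728.AK.mu g0 (T x) (n x)) ^ E) := by
      rw [Finset.prod_mul_distrib, Finset.prod_pow, Finset.prod_pow, Finset.prod_div_distrib,
        Finset.prod_div_distrib]
      have a1 : YY I = ∏ x : I, y x := (Finset.prod_coe_sort I y).symm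
      have a2 : YY I' = ∏ x : I, y (e x) := by
        rw [Equiv.prod_comp e (fun x : I' => y x)]
        exact (Finset.prod_coe_sort I' y).symm
      have a3 : M I = ∏ x : I, Pool.Agent.Y728.AK.mu g0 (T x) (n x) :=
        (Finset.prod_coe_sort I fun x => Pool.Agent.Y728.AK.mu g0 (T x) (n x)).symm
      have a4 : M I' = ∏ x : I, Pool.Agent.Y728.AK.mu g0 (T (e x)) (n (e x)) := by
        rw [Equiv.prod_comp e (fun x : I' => Pool.Agent.Y728.AK.mu g0 (T x) (n x))]
        exact (Finset.prod_coe_sort I' fun x => Pool.Agent.Y728.AK.mu g0 (T x) (n x)).symm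
      rw [a1, a2, a3, a4]
    have hκh : logHeight₁ ((YY I / YY I') ^ h0 * (M I' / M I) ^ E) ≤ q * ν := by
      rw [hκe]
      refine (logHeight₁_prod_le _ _).trans ?_
      refine (Finset.sum_le_sum fun (x : I) _ => hκ x (hIF x.2) (e x) (hIF' (e x).2)).trans ?_
      rw [Finset.sum_const, Finset.card_univ, Fintype.card_coe, hIc, nsmul_eq_mul]
    have hMh2 : logHeight₁ (M I / M I') ≤ 2 * q * h := by
      have a0 : logHeight₁ (M I / M I') ≤ logHeight₁ (M I) + logHeight₁ (M I') := by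
        rw [div_eq_mul_inv]
        refine (logHeight₁_mul_le _ _).trans ?_
        rw [logHeight₁_inv]
      have := hMh I hIF hIc
      have := hMh I' hIF' hIc'
      linarith
    have e1 : (M I / M I') ^ E * ((YY I / YY I') ^ h0 * (M I' / M I) ^ E) =
        (YY I / YY I') ^ h0 := by
      have : (M I / M I') ^ E * (M I' / M I) ^ E = 1 := by
        rw [← mul_pow]
        have a1 := hMne I
        have a2 := hMne I'
        have : M I / M I' * (M I' / M I) = 1 := by field_simp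
        rw [this, one_pow]
      calc _ = (YY I / YY I') ^ h0 * ((M I / M I') ^ E * (M I' / M I) ^ E) := by ring
        _ = _ := by rw [this, mul_one]
    have hl1 : c0 ≤ c1 := by linarith
    have hc0pos : 0 < c0 := by linarith
    obtain ⟨hA, -⟩ := hcore w g (2 * q * h) (q * ν) E (Y - 1)
      (M I / M I') ((YY I / YY I') ^ h0 * (M I' / M I) ^ E) (div_ne_zero (hMne _) (hMne _))
      (mul_ne_zero (pow_ne_zero _ (div_ne_zero (hYYne _ hIF) (hYYne _ hIF')))
        (pow_ne_zero _ (div_ne_zero (hMne _) (hMne _))))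
      (hl1.trans hcg) hgh hgν hMh2 hκh hpig
      (by
        rw [e1]
        exact hnear I hIF I' hIF' hIc.le hIc'.le)
      ((mul_le_mul_of_nonneg_right hl1 hqνpos.le).trans h1)
      (by
        have a1 : Real.exp (g / c1) ≤ Real.exp (g / (2 * c0)) := by
          rw [Real.exp_le_exp]
          exact div_le_div_of_nonneg_left hgpos.le (by linarith) (by linarith)
        have a2 : 2 ≤ Real.exp (g / (2 * c0)) := by
          have b1 : 1 ≤ g / (2 * c0) := by
            rw [le_div_iff₀ (by linarith)]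
            linarith
          have b2 := Real.add_one_le_exp (g / (2 * c0))
          linarith
        have a3 : Real.exp (g / c0) = Real.exp (g / (2 * c0)) * Real.exp (g / (2 * c0)) := by
          rw [← Real.exp_add]
          congr 1
          field_simp
          ring
        rw [a3]
        calc (E:ℝ) * (2 * q * h) = 2 * (E * (q * h)) := by ring
          _ ≤ Real.exp (g / (2 * c0)) * Real.exp (g / (2 * c0)) := by
            apply mul_le_mul a2 (h2.trans a1) (by positivity) (by positivity))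
      (by
        have a1 : (Y:ℝ) ≤ 2 * ((Y - 1 : ℕ) : ℝ) := by
          rw [Nat.cast_sub (by omega)]
          push_cast
          linarith
        have a2 : (4 * c0) * (q * h) * (q * ν) ≤ c1 * (q * h) * (q * ν) := by
          apply mul_le_mul_of_nonneg_right _ hqνpos.le
          apply mul_le_mul_of_nonneg_right _ hqhpos.le
          linarith
        have a3 : (Y:ℝ) * g ^ 2 ≤ 2 * ((Y - 1 : ℕ) : ℝ) * g ^ 2 :=
          mul_le_mul_of_nonneg_right a1 (by positivity)
        nlinarith)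
    have hMM : M I = M I' := (div_eq_one_iff_eq (hMne _)).1 hA
    -- a private prime
    obtain ⟨x, hxI, hxI'⟩ : ∃ x ∈ I, x ∉ I' := by
      by_contra hcon
      push Not at hcon
      exact hII' (Finset.eq_of_subset_of_card_le hcon (by rw [hIc, hIc']))
    obtain ⟨v, hvT, hvpriv⟩ := hpriv x (hIP hxI)
    have hr : fv v (M I') = 1 := by
      rw [hM]
      show fv v (∏ x ∈ I', Pool.Agent.Y728.AK.mu g0 (T x) (n x)) = 1
      rw [map_prod]
      refine Finset.prod_eq_one fun x' hx' => ?_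
      exact G.fv_mu_out _ _ (hvpriv x' (hIP' hx') (fun h => hxI' (h ▸ hx')))
    have hl : fv v (M I) = fv v (Pool.Agent.Y728.AK.mu g0 (T x) (n x)) := by
      rw [hM]
      show fv v (∏ x ∈ I, Pool.Agent.Y728.AK.mu g0 (T x) (n x)) = _
      rw [map_prod, ← Finset.mul_prod_erase I _ hxI, Finset.prod_eq_one, mul_one]
      intro x' hx'
      exact G.fv_mu_out _ _ (hvpriv x' (hIP (Finset.mem_of_mem_erase hx'))
        (Finset.ne_of_mem_erase hx'))
    have hlog := G.fv_mu (T x) (n x) hvT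
    rw [← hl, hMM, hr, Real.log_one] at hlog
    have hn0 : (n x v : ℝ) ≠ 0 := by exact_mod_cast (hn x (hP' (hIP hxI)) v hvT).1
    have hh0 : (h0 : ℝ) ≠ 0 := by
      have := G.h1
      exact_mod_cast (by omega : h0 ≠ 0)
    have hNv := (log_Nv_pos' v).ne'
    have : (h0 : ℝ) * n x v * Real.log (Nv v) ≠ 0 := mul_ne_zero (mul_ne_zero hh0 hn0) hNv
    apply this
    linarith

end

end Pool.Agent.Y812.AK
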