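import Pool.Agent.Y728.AK.GBL
import Pool.Agent.H520R2.Sun
import Pool.Agent.TH876.KR.NearOne

/-!
# Jobs J4a, J4b, J4c of the project AK (helper728): combinatorics and residues
-/

set_option autoImplicit false

namespace Pool.Agent.Y812.AK

open Finset NumberField IsDedekindDomain Height Pool.Agent.H691R3 Pool.Agent.TH876.Loc
open Pool.Agent.Y728.AK
open Pool.Agent.TH876.KR (log_Nv_pos')

/-- counting by supports and a sunflower -/
theorem sun_count {ι α : Type*} [DecidableEq α] (F : Finset ι) (T : ι → Finset α)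
    (n : ι → α → ℤ) (m0 N s : ℕ) (hs : 1 ≤ s) (hT : ∀ x ∈ F, (T x).card ≤ m0)
    (hn : ∀ x ∈ F, ∀ v ∈ T x, |n x v| ≤ N)
    (hinj : ∀ x ∈ F, ∀ x' ∈ F, T x = T x' → (∀ v ∈ T x, n x v = n x' v) → x = x')
    (hsun : ∀ P' ⊆ F, s - 1 ≤ P'.card →
      (∀ x ∈ P', ∃ v ∈ T x, ∀ x' ∈ P', x' ≠ x → v ∉ T x') → False) :
    F.card ≤ (s ^ m0 * m0.factorial) * (2 * N + 1) ^ m0 := by
  classical
  have hfib : ∀ S ∈ F.image T, (F.filter fun x => T x = S).card ≤ (2 * N + 1) ^ m0 := by
    intro S hS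
    obtain ⟨x0, hx0, rfl⟩ := Finset.mem_image.1 hS
    have h1 : (F.filter fun x => T x = T x0).card ≤
        (Fintype.piFinset fun _ : T x0 => Finset.Icc (-(N : ℤ)) N).card := by
      refine Finset.card_le_card_of_injOn (fun x v => n x v) ?_ ?_
      · intro x hx
        have hx' := Finset.mem_filter.1 hx
        rw [Finset.mem_coe, Fintype.mem_piFinset]
        intro v
        rw [Finset.mem_Icc, ← abs_le]
        exact hn x hx'.1 v (by rw [hx'.2]; exact v.2)
      · intro x hx y hy hxy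
        have hx' := Finset.mem_filter.1 hx
        have hy' := Finset.mem_filter.1 hy
        refine hinj x hx'.1 y hy'.1 (hx'.2.trans hy'.2.symm) fun v hv => ?_
        exact congrFun hxy (⟨v, by rw [← hx'.2]; exact hv⟩ : T x0)
    refine h1.trans ?_
    rw [Fintype.card_piFinset, Finset.prod_const, Finset.card_univ, Fintype.card_coe, Int.card_Icc]
    have e : ((N : ℤ) + 1 - -(N : ℤ)).toNat = 2 * N + 1 := by omega
    rw [e]
    exact Nat.pow_le_pow_right (by omega) (hT x0 hx0)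
  have hcardF : F.card ≤ (F.image T).card * (2 * N + 1) ^ m0 := by
    rw [Finset.card_eq_sum_card_image T F]
    refine (Finset.sum_le_sum hfib).trans (le_of_eq ?_)
    rw [Finset.sum_const, smul_eq_mul]
  refine hcardF.trans (Nat.mul_le_mul_right _ ?_)
  by_contra hcon
  rw [not_le] at hcon
  obtain ⟨P, hPsub, hPcard, Z, hZ, hZ'⟩ := Pool.Agent.H520R2.sunflower s hs m0 (F.image T)
    (by
      intro S hS
      obtain ⟨x, hx, rfl⟩ := Finset.mem_image.1 hS
      exact hT x hx) hcon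
  have hch : ∀ S ∈ P, ∃ x ∈ F, T x = S := fun S hS => by
    obtain ⟨x, hx, hxS⟩ := Finset.mem_image.1 (hPsub hS)
    exact ⟨x, hx, hxS⟩
  obtain ⟨x00, -⟩ : F.Nonempty := by
    rw [Finset.nonempty_iff_ne_empty]
    rintro rfl
    simp at hcon
  have : Nonempty ι := ⟨x00⟩
  choose! τ hτF hτS using hch
  have hτinj : Set.InjOn τ (↑(P.erase Z) : Set (Finset α)) := by
    intro S hS S' hS' h
    rw [Finset.mem_coe] at hS hS'
    rw [← hτS S (Finset.mem_of_mem_erase hS), ← hτS S' (Finset.mem_of_mem_erase hS'), h]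
  refine hsun ((P.erase Z).image τ) ?_ ?_ ?_
  · intro x hx
    obtain ⟨S, hS, rfl⟩ := Finset.mem_image.1 hx
    exact hτF S (Finset.mem_of_mem_erase hS)
  · rw [Finset.card_image_of_injOn hτinj, ← hPcard]
    exact Finset.pred_card_le_card_erase
  · intro x hx
    obtain ⟨S, hS, rfl⟩ := Finset.mem_image.1 hx
    have hSP := Finset.mem_of_mem_erase hS
    have hSZ := Finset.ne_of_mem_erase hS
    obtain ⟨v, hvS, hvZ⟩ : ∃ v ∈ S, v ∉ Z := by
      by_contra hcon
      push Not at hcon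
      exact hSZ (Finset.Subset.antisymm hcon (hZ S hSP))
    refine ⟨v, by rw [hτS S hSP]; exact hvS, fun x' hx' hne => ?_⟩
    obtain ⟨S', hS', rfl⟩ := Finset.mem_image.1 hx'
    have hS'P := Finset.mem_of_mem_erase hS'
    rw [hτS S' hS'P]
    intro hv
    have hne' : S ≠ S' := by
      rintro rfl
      exact hne rfl
    exact hvZ (hZ' S hSP S' hS'P hne' (Finset.mem_inter.2 ⟨hvS, hv⟩))

section
variable {K : Type} [Field K] [NumberField K]

/-! ### numbers close to one at a finite place -/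

theorem nf_one {v : Pr K} {δ : ℝ} (hδ : δ < 1) {a : K} (ha : fv v (a - 1) ≤ δ) : fv v a = 1 := by
  have h1 : fv v a ≤ 1 := by
    have h2 : a = 1 + (a - 1) := by ring
    rw [h2]
    refine (fv_na v _ _).trans (max_le ?_ (ha.trans hδ.le))
    rw [map_one]
  apply le_antisymm h1
  have h3 : (1:K) = a + -(a - 1) := by ring
  have h4 : (1:ℝ) ≤ max (fv v a) (fv v (a - 1)) := by
    calc (1:ℝ) = fv v (1:K) := by rw [map_one]
      _ = fv v (a + -(a - 1)) := by rw [← h3]
      _ ≤ max (fv v a) (fv v (-(a - 1))) := fv_na v _ _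
      _ = _ := by rw [(fv v).map_neg]
  rcases le_max_iff.1 h4 with h5 | h5
  · exact h5
  · linarith

theorem nf_mul {v : Pr K} {δ : ℝ} (hδ : δ < 1) {a b : K} (ha : fv v (a - 1) ≤ δ)
    (hb : fv v (b - 1) ≤ δ) : fv v (a * b - 1) ≤ δ := by
  have h1 : a * b - 1 = a * (b - 1) + (a - 1) := by ring
  rw [h1]
  refine (fv_na v _ _).trans (max_le ?_ ha)
  rw [map_mul, nf_one hδ ha, one_mul]
  exact hb

theorem nf_inv {v : Pr K} {δ : ℝ} (hδ : δ < 1) {a : K} (ha : fv v (a - 1) ≤ δ) :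
    fv v (a⁻¹ - 1) ≤ δ := by
  have h1 := nf_one hδ ha
  have h2 : a ≠ 0 := by
    intro h
    rw [h, map_zero] at h1
    exact zero_ne_one h1
  have h3 : a⁻¹ - 1 = -(a - 1) / a := by
    field_simp
    ring
  rw [h3, map_div₀, (fv v).map_neg, h1, div_one]
  exact ha

theorem nf_div {v : Pr K} {δ : ℝ} (hδ : δ < 1) {a b : K} (ha : fv v (a - 1) ≤ δ)
    (hb : fv v (b - 1) ≤ δ) : fv v (a / b - 1) ≤ δ := by
  rw [div_eq_mul_inv]
  exact nf_mul hδ ha (nf_inv hδ hb)

theorem nf_prod {v : Pr K} {δ : ℝ} (hδ0 : 0 ≤ δ) (hδ : δ < 1) {ι : Type*} (s : Finset ι) (f : ι → K)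
    (hf : ∀ i ∈ s, fv v (f i - 1) ≤ δ) : fv v (∏ i ∈ s, f i - 1) ≤ δ := by
  classical
  induction s using Finset.induction_on with
  | empty => simpa using hδ0
  | insert i s hi ih =>
    rw [Finset.prod_insert hi]
    exact nf_mul hδ (hf i (Finset.mem_insert_self _ _))
      (ih fun j hj => hf j (Finset.mem_insert_of_mem hj))

theorem nf_pow {v : Pr K} {δ : ℝ} (hδ0 : 0 ≤ δ) (hδ : δ < 1) {a : K} (ha : fv v (a - 1) ≤ δ)
    (n : ℕ) : fv v (a ^ n - 1) ≤ δ := by
  have := nf_prod hδ0 hδ (Finset.range n) (fun _ => a) fun _ _ => ha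
  simpa using this

/-! ### residues -/

theorem fv_le_of_val {v : Pr K} {x : K} {m : ℕ} (h : v.valuation K x ≤ WithZero.exp (-(m : ℤ))) :
    fv v x ≤ Real.exp (-(m * Real.log (Nv v))) := by
  by_cases hx : x = 0
  · rw [hx, map_zero]; exact (Real.exp_pos _).le
  have h1 : fv v x = _ := NumberField.FinitePlace.norm_embedding' (v := v) (x := x)
  have hx' : v.valuation K x ≠ 0 := (Valuation.ne_zero_iff _).mpr hx
  rw [WithZeroMulInt.toNNReal_neg_apply _ hx'] at h1
  have h2 : Multiplicative.toAdd (WithZero.unzero hx') ≤ -(m : ℤ) := by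
    have h3 : (↑(WithZero.unzero hx') : WithZero (Multiplicative ℤ)) ≤ WithZero.exp (-(m : ℤ)) := by
      rw [WithZero.coe_unzero]
      exact h
    exact WithZero.coe_le_coe.1 h3
  have h4 : fv v x = (Nv v) ^ (Multiplicative.toAdd (WithZero.unzero hx')) := by
    rw [h1]; push_cast; rfl
  have hN : 1 < Nv v := by linarith [Pool.Agent.H691R3.two_le_Nv v]
  rw [h4, ← Real.log_le_iff_le_exp (zpow_pos (by linarith) _), Real.log_zpow]
  have h5 : ((Multiplicative.toAdd (WithZero.unzero hx') : ℤ) : ℝ) ≤ -(m : ℝ) := by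
    exact_mod_cast h2
  have h6 := log_Nv_pos' v
  nlinarith

theorem val_le_one {v : Pr K} {x : K} (h : fv v x = 1) : v.valuation K x ≤ 1 := by
  have h1 : fv v x = _ := NumberField.FinitePlace.norm_embedding' (v := v) (x := x)
  by_cases h0 : v.valuation K x = 0
  · rw [h0]
    exact zero_le
  rw [h, WithZeroMulInt.toNNReal_neg_apply _ h0] at h1
  push_cast at h1
  have h3 : (1 : ℝ) < (Ideal.absNorm v.asIdeal : ℝ) := by
    have := Pool.Agent.H691R3.two_le_Nv v
    unfold Nv at this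
    linarith
  have h4 : Multiplicative.toAdd (WithZero.unzero h0) = 0 := by
    by_contra h5
    rcases lt_or_gt_of_ne h5 with h6 | h6
    · have := zpow_lt_one_of_neg₀ h3 h6
      linarith
    · have := one_lt_zpow₀ h3 h6
      linarith
  have h5 : (↑(WithZero.unzero h0) : WithZero (Multiplicative ℤ)) = v.valuation K x :=
    WithZero.coe_unzero h0
  have h6 : WithZero.unzero h0 = 1 := by
    rw [← ofAdd_toAdd (WithZero.unzero h0), h4]; rfl
  rw [← h5, h6]
  exact le_rfl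

/-- a residue map modulo the `m`-th power of `v` -/
theorem exists_res (v : Pr K) (m : ℕ) : ∃ r : K → 𝓞 K ⧸ v.asIdeal ^ m, ∀ z z' : K,
    fv v z = 1 → fv v z' = 1 → r z = r z' → fv v (z / z' - 1) ≤ Real.exp (-(m * Real.log (Nv v))) := by
  have hex : ∀ z : K, ∃ a : 𝓞 K, fv v z = 1 → v.valuation K ((a : K) - z) ≤ WithZero.exp (-(m : ℤ)) := by
    intro z
    by_cases hz : fv v z = 1
    · obtain ⟨a, ha⟩ := HeightOneSpectrum.exists_valuation_sub_lt_of_integer v (val_le_one hz)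
        (Units.mk0 (WithZero.exp (-(m : ℤ))) WithZero.exp_ne_zero)
      exact ⟨a, fun _ => ha.le⟩
    · exact ⟨0, fun h => absurd h hz⟩
  choose a ha using hex
  refine ⟨fun z => Ideal.Quotient.mk _ (a z), fun z z' hz hz' h => ?_⟩
  rw [Ideal.Quotient.eq] at h
  have h1 : v.valuation K (((a z - a z' : 𝓞 K) : K)) ≤ WithZero.exp (-(m : ℤ)) := by
    have e : v.valuation K (((a z - a z' : 𝓞 K) : K)) = v.intValuation (a z - a z') :=
      v.valuation_of_algebraMap _
    rw [e, HeightOneSpectrum.intValuation_le_pow_iff_mem]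
    exact h
  have h2 := fv_le_of_val h1
  have h3 := fv_le_of_val (ha z hz)
  have h4 := fv_le_of_val (ha z' hz')
  have h0 : z' ≠ 0 := by
    intro h
    rw [h, map_zero] at hz'
    exact zero_ne_one hz'
  have e1 : z / z' - 1 = (z - z') / z' := by field_simp
  have e2 : z - z' = (-((a z : K) - z) + ((a z - a z' : 𝓞 K) : K)) + ((a z' : K) - z') := by
    have : ((a z - a z' : 𝓞 K) : K) = (a z : K) - a z' := rfl
    rw [this]; ring
  rw [e1, map_div₀, hz', div_one, e2]
  refine (fv_na v _ _).trans (max_le ((fv_na v _ _).trans (max_le ?_ h2)) h4)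
  rw [(fv v).map_neg]
  exact h3

/-- pigeonhole modulo prime powers -/
theorem pig_fin {ι : Type*} (F : Finset ι) (S : Finset (Pr K)) (m : Pr K → ℕ) (μ : ι → K)
    (hμ : ∀ x ∈ F, ∀ v ∈ S, fv v (μ x) = 1)
    (hcard : Real.exp (∑ v ∈ S, m v * Real.log (Nv v)) < F.card) :
    ∃ x ∈ F, ∃ x' ∈ F, x ≠ x' ∧
      ∀ v ∈ S, fv v (μ x / μ x' - 1) ≤ Real.exp (-(m v * Real.log (Nv v))) := by
  classical
  choose r hr using fun v : S => exists_res v.1 (m v.1)
  have hfin : ∀ v : S, Finite (𝓞 K ⧸ v.1.asIdeal ^ m v.1) := fun v =>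
    Ideal.finiteQuotientOfFreeOfNeBot _ (pow_ne_zero _ v.1.ne_bot)
  let _ : Fintype (∀ v : S, 𝓞 K ⧸ v.1.asIdeal ^ m v.1) := Fintype.ofFinite _
  have hc : ((Fintype.card (∀ v : S, 𝓞 K ⧸ v.1.asIdeal ^ m v.1) : ℕ) : ℝ) =
      Real.exp (∑ v ∈ S, m v * Real.log (Nv v)) := by
    rw [← Nat.card_eq_fintype_card, Nat.card_pi, Real.exp_sum,
      ← Finset.prod_coe_sort S (fun v => Real.exp (m v * Real.log (Nv v)))]
    push_cast
    refine Finset.prod_congr rfl fun v _ => ?_
    have h1 : Nat.card (𝓞 K ⧸ v.1.asIdeal ^ m v.1) = Ideal.absNorm (v.1.asIdeal ^ m v.1) := by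
      rw [Ideal.absNorm_apply]; rfl
    rw [h1, map_pow, ← Real.log_pow, Real.exp_log]
    · unfold Nv; push_cast; rfl
    · exact pow_pos (by linarith [Pool.Agent.H691R3.two_le_Nv v.1]) _
  obtain ⟨x, hx, x', hx', hne, heq⟩ := Finset.exists_ne_map_eq_of_card_lt_of_maps_to
    (s := F) (t := (Finset.univ : Finset (∀ v : S, 𝓞 K ⧸ v.1.asIdeal ^ m v.1)))
    (f := fun x v => r v (μ x)) (by
      rw [Finset.card_univ]
      rw [← hc] at hcard
      exact_mod_cast hcard) (fun _ _ => Finset.mem_univ _)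
  refine ⟨x, hx, x', hx', hne, fun v hv => ?_⟩
  exact hr ⟨v, hv⟩ _ _ (hμ x hx v hv) (hμ x' hx' v hv) (congrFun heq ⟨v, hv⟩)

end

end Pool.Agent.Y812.AK
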